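import Pool.Agent.W488.IX.Sch

set_option autoImplicit false

open MeasureTheory

namespace Pool.Agent.Results.MP_dd244f_an.NormOneSharp

/-- The case `n = 1` of the question, for every real `p ≥ 2`: the Fourier multiplier with symbol
`conj ξ / ξ` has norm at most `(1/q)_1 / (1/p)_1` on `L^p` of the plane, and this is `p - 1`. -/
theorem result (p : ℝ) (hp : 2 ≤ p) :
    (∀ f : SchwartzMap ℂ ℂ,
      eLpNorm
        (fun z : ℂ => ∫ ξ : ℂ,
          Complex.exp (2 * (Real.pi : ℂ) * Complex.I * (((z.re * ξ.re + z.im * ξ.im : ℝ)) : ℂ)) *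
            ((starRingEnd ℂ ξ / ξ) ^ 1 *
              ∫ x : ℂ, Complex.exp (-(2 * (Real.pi : ℂ) * Complex.I *
                (((x.re * ξ.re + x.im * ξ.im : ℝ)) : ℂ))) * f x))
        (ENNReal.ofReal p) volume
      ≤ ENNReal.ofReal ((ascPochhammer ℝ 1).eval (1 - 1 / p) / (ascPochhammer ℝ 1).eval (1 / p))
        * eLpNorm (⇑f) (ENNReal.ofReal p) volume) ∧
    (ascPochhammer ℝ 1).eval (1 - 1 / p) / (ascPochhammer ℝ 1).eval (1 / p) = p - 1 := by
  have h : (ascPochhammer ℝ 1).eval (1 - 1 / p) / (ascPochhammer ℝ 1).eval (1 / p) = p - 1 := by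
    have hp0 : p ≠ 0 := by linarith
    rw [ascPochhammer_one, Polynomial.eval_X, Polynomial.eval_X]
    field_simp
  refine ⟨fun f => ?_, h⟩
  rw [h]
  exact W488.IX.Sch.form p hp f

end Pool.Agent.Results.MP_dd244f_an.NormOneSharp
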